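import Pool.Agent.K1H88.DF.Stm

set_option autoImplicit false

/-! # Pieces S_COV and S_DIR of project DF (for helper88) -/

namespace Pool.Agent.K1H10.DF

open Pool.Agent.K1H88.DF Module NumberField

section

variable (F : Type) [Field F] [NumberField F]

/-- the index set of the integral basis -/
abbrev Ix : Type := Module.Free.ChooseBasisIndex ℤ (𝓞 F)

/-- the integral basis -/
noncomputable def om (j : Ix F) : F := integralBasis F j

theorem om_int (j : Ix F) : IsIntegral ℤ (om F j) := by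
  unfold om
  rw [integralBasis_apply]
  exact RingOfIntegers.isIntegral_coe _

/-- real coordinates with respect to the integral basis -/
theorem coords (w : (F →+* ℂ) → ℂ)
    (hw : ∀ u, w (ComplexEmbedding.conjugate u) = (starRingEnd ℂ) (w u)) :
    ∃ t : Ix F → ℝ, ∀ u : F →+* ℂ, w u = ∑ j, (t j : ℂ) * u (om F j) := by
  obtain ⟨B, hB⟩ : ∃ B, B = canonicalEmbedding.latticeBasis F := ⟨_, rfl⟩
  obtain ⟨t, ht⟩ : ∃ t, t = B.equivFun w := ⟨_, rfl⟩
  have h0 : ∀ j u, B j u = u (om F j) := by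
    intro j u
    rw [hB, canonicalEmbedding.latticeBasis_apply]
    rfl
  have h1 : ∀ u : F →+* ℂ, w u = ∑ j, t j * u (om F j) := by
    intro u
    have h := congrFun (B.sum_equivFun w) u
    rw [← h, Finset.sum_apply]
    refine Finset.sum_congr rfl fun j _ => ?_
    rw [Pi.smul_apply, h0, smul_eq_mul, ht]
  have h2 : B.equivFun.symm (fun j => (starRingEnd ℂ) (t j)) = w := by
    rw [Basis.equivFun_symm_apply]
    ext u
    rw [Finset.sum_apply]
    have h3 := hw u
    rw [h1 (ComplexEmbedding.conjugate u)] at h3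
    have h4 := congrArg (starRingEnd ℂ) h3
    rw [Complex.conj_conj, map_sum] at h4
    rw [← h4]
    refine Finset.sum_congr rfl fun j _ => ?_
    rw [Pi.smul_apply, h0, smul_eq_mul, map_mul, ComplexEmbedding.conjugate_coe_eq,
      Complex.conj_conj]
  have h3 : (fun j => (starRingEnd ℂ) (t j)) = t := by
    have h4 := (LinearEquiv.symm_apply_eq B.equivFun).1 h2
    exact h4.trans ht.symm
  refine ⟨fun j => (t j).re, fun u => ?_⟩
  rw [h1 u]
  refine Finset.sum_congr rfl fun j _ => ?_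
  rw [Complex.conj_eq_iff_re.1 (congrFun h3 j)]

/-- the sum of the absolute values of all conjugates of the integral basis -/
noncomputable def sz : ℝ := 1 + ∑ u : F →+* ℂ, ∑ j, ‖u (om F j)‖

theorem one_le_sz : 1 ≤ sz F := by
  unfold sz
  have : 0 ≤ ∑ u : F →+* ℂ, ∑ j, ‖u (om F j)‖ :=
    Finset.sum_nonneg fun _ _ => Finset.sum_nonneg fun _ _ => norm_nonneg _
  linarith

theorem le_sz (u : F →+* ℂ) : ∑ j, ‖u (om F j)‖ ≤ sz F := by
  unfold sz
  have : ∑ j, ‖u (om F j)‖ ≤ ∑ u : F →+* ℂ, ∑ j, ‖u (om F j)‖ :=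
    Finset.single_le_sum (f := fun u : F →+* ℂ => ∑ j, ‖u (om F j)‖)
      (fun _ _ => Finset.sum_nonneg fun _ _ => norm_nonneg _) (Finset.mem_univ u)
  linarith

/-- integral combinations of the integral basis -/
noncomputable def comb (m : Ix F → ℤ) : F := ∑ j, (m j : F) * om F j

theorem comb_int (m : Ix F → ℤ) : IsIntegral ℤ (comb F m) := by
  unfold comb
  refine IsIntegral.sum _ fun j _ => IsIntegral.mul ?_ (om_int F j)
  exact isIntegral_algebraMap (R := ℤ) (A := F) (x := m j)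

theorem comb_err (m : Ix F → ℤ) (t : Ix F → ℝ) (δ : ℝ) (hδ : 0 ≤ δ) (h : ∀ j, |t j - m j| ≤ δ)
    (u : F →+* ℂ) : ‖(∑ j, (t j : ℂ) * u (om F j)) - u (comb F m)‖ ≤ δ * sz F := by
  have h1 : (∑ j, (t j : ℂ) * u (om F j)) - u (comb F m) =
      ∑ j, ((t j - m j : ℝ) : ℂ) * u (om F j) := by
    unfold comb
    rw [map_sum, ← Finset.sum_sub_distrib]
    refine Finset.sum_congr rfl fun j _ => ?_
    rw [map_mul, map_intCast]
    push_cast
    ring
  rw [h1]
  refine (norm_sum_le _ _).trans ?_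
  calc ∑ j, ‖((t j - m j : ℝ) : ℂ) * u (om F j)‖ ≤ ∑ j, δ * ‖u (om F j)‖ := by
        refine Finset.sum_le_sum fun j _ => ?_
        rw [norm_mul, Complex.norm_real, Real.norm_eq_abs]
        exact mul_le_mul_of_nonneg_right (h j) (norm_nonneg _)
    _ = δ * ∑ j, ‖u (om F j)‖ := by rw [Finset.mul_sum]
    _ ≤ δ * sz F := mul_le_mul_of_nonneg_left (le_sz F u) hδ

end

theorem t_COV : S_COV := by
  intro F _ _
  refine ⟨sz F, one_le_sz F, fun w hw => ?_⟩
  obtain ⟨t, ht⟩ := coords F w hw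
  refine ⟨comb F fun j => round (t j), comb_int F _, fun u => ?_⟩
  rw [ht u]
  refine (comb_err F _ t (1 / 2) (by norm_num) (fun j => abs_sub_round (t j)) u).trans ?_
  have := one_le_sz F
  linarith

/-- Dirichlet's theorem on simultaneous approximation -/
theorem dirichlet {J : Type} [Fintype J] (N : ℕ) (hN : 0 < N) (t : J → ℝ) :
    ∃ (s : ℕ) (m : J → ℤ), 1 ≤ s ∧ s ≤ N ^ Fintype.card J ∧
      ∀ j, |s * t j - m j| ≤ 1 / (N : ℝ) := by
  classical
  have hN0 : (0 : ℝ) < N := by exact_mod_cast hN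
  have hb : ∀ (k : ℕ) (j : J), ⌊(N : ℝ) * Int.fract (k * t j)⌋₊ < N := by
    intro k j
    rw [Nat.floor_lt (mul_nonneg hN0.le (Int.fract_nonneg _))]
    have := Int.fract_lt_one ((k : ℝ) * t j)
    calc (N : ℝ) * Int.fract (k * t j) < N * 1 := mul_lt_mul_of_pos_left this hN0
      _ = N := mul_one _
  let box : ℕ → (J → Fin N) := fun k j => ⟨⌊(N : ℝ) * Int.fract (k * t j)⌋₊, hb k j⟩
  obtain ⟨a, ha, b, hb', hab, hbox⟩ := Finset.exists_ne_map_eq_of_card_lt_of_maps_to
    (s := Finset.range (N ^ Fintype.card J + 1)) (t := (Finset.univ : Finset (J → Fin N)))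
    (f := box) (by
      rw [Finset.card_range, Finset.card_univ, Fintype.card_fun, Fintype.card_fin]
      exact Nat.lt_succ_self _) (fun _ _ => Finset.mem_univ _)
  rw [Finset.mem_range] at ha hb'
  wlog hlt : a < b generalizing a b
  · exact this b hb' a ha (Ne.symm hab) hbox.symm (by omega)
  refine ⟨b - a, fun j => ⌊(b : ℝ) * t j⌋ - ⌊(a : ℝ) * t j⌋, by omega, by omega, fun j => ?_⟩
  have h1 : ⌊(N : ℝ) * Int.fract (a * t j)⌋₊ = ⌊(N : ℝ) * Int.fract (b * t j)⌋₊ :=
    congrArg (fun f : J → Fin N => ((f j : Fin N) : ℕ)) hbox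
  have h2 := Nat.floor_le (mul_nonneg hN0.le (Int.fract_nonneg ((a : ℝ) * t j)))
  have h3 := Nat.lt_floor_add_one ((N : ℝ) * Int.fract (a * t j))
  have h4 := Nat.floor_le (mul_nonneg hN0.le (Int.fract_nonneg ((b : ℝ) * t j)))
  have h5 := Nat.lt_floor_add_one ((N : ℝ) * Int.fract (b * t j))
  rw [h1] at h2 h3
  have h6 : (((b - a : ℕ) : ℝ) * t j - ((⌊(b : ℝ) * t j⌋ - ⌊(a : ℝ) * t j⌋ : ℤ) : ℝ)) =
      Int.fract (b * t j) - Int.fract (a * t j) := by
    rw [Nat.cast_sub hlt.le, ← Int.self_sub_floor, ← Int.self_sub_floor]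
    push_cast
    ring
  rw [h6, abs_le]
  constructor
  · rw [neg_le, neg_sub, le_div_iff₀ hN0]
    nlinarith
  · rw [le_div_iff₀ hN0]
    nlinarith

theorem t_DIR : S_DIR := by
  intro F _ _ ε hε
  obtain ⟨N, hN⟩ := exists_nat_gt (sz F / ε)
  have hsz := one_le_sz F
  have hN0 : (0 : ℝ) < N := lt_of_le_of_lt (by positivity) hN
  refine ⟨N ^ Fintype.card (Ix F), fun w hw => ?_⟩
  obtain ⟨t, ht⟩ := coords F w hw
  obtain ⟨s, m, h1, h2, h3⟩ := dirichlet N (by exact_mod_cast hN0) t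
  refine ⟨s, comb F m, h1, h2, comb_int F _, fun u => ?_⟩
  have e : (s : ℂ) * w u = ∑ j, ((s * t j : ℝ) : ℂ) * u (om F j) := by
    rw [ht u, Finset.mul_sum]
    refine Finset.sum_congr rfl fun j _ => ?_
    push_cast
    ring
  rw [e]
  refine (comb_err F m (fun j => s * t j) (1 / N) (by positivity) h3 u).trans ?_
  rw [div_lt_iff₀ hε] at hN
  rw [one_div, inv_mul_le_iff₀ hN0]
  linarith

end Pool.Agent.K1H10.DF
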