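import Pool.Agent.K1H88.DF.Stm
import Pool.Agent.K1H10.DP.FinTrans

set_option autoImplicit false
set_option linter.unusedSectionVars false

/-! # Piece S_TRANS of project DF (for helper88) -/

namespace Pool.Agent.K1H10.DF

open Pool.Agent.K1H88.DF Module NumberField Polynomial
open Pool.Agent.K1H88.DP (Kp pl Emb)
open Pool.Agent.K1H10.DP (Q' plQ pushE pushE_inj pushE_surj pl_push fin_gen)

section

variable {F : Type} [Field F] [NumberField F] {ι : Type} [Fintype ι] {E : ι → Type}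
  [∀ k, Field (E k)] [∀ k, NumberField (E k)] [∀ k, Algebra F (E k)]

/-- the restriction of an embedding to `F` -/
abbrev rs (F : Type) [Field F] [∀ k, Algebra F (E k)] {K : Type} [Field K] (i : Emb E K) :
    F →+* K := i.2.comp (algebraMap F (E i.1))

theorem rs_push {K : Type} [Field K] (τ : Q' →+* K) (i : Emb E Q') :
    rs F (pushE τ i) = τ.comp (rs F i) := rfl

theorem rs_eq {K : Type} [Field K] (τ : Q' →+* K) {i j : Emb E Q'}
    (h : rs F (pushE τ i) = rs F (pushE τ j)) : rs F i = rs F j := by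
  rw [rs_push, rs_push] at h
  ext a
  exact τ.injective (congrArg (fun φ : F →+* K => φ a) h)

theorem plQ_ne {x y : ∀ k, E k} (h : Distinct F E x y) {i j : Emb E Q'} (hij : i ≠ j)
    (hu : rs F i = rs F j) : plQ x y i j ≠ 0 := by
  intro h0
  set τ : Q' →+* ℂ := (IsAlgClosed.lift : Q' →ₐ[ℚ] ℂ).toRingHom with hτ
  have h1 := h (rs F (pushE τ i)) ⟨pushE τ i, rfl⟩
    ⟨pushE τ j, by
      change rs F (pushE τ j) = rs F (pushE τ i)
      rw [rs_push, rs_push, hu]⟩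
    (fun h2 => hij (pushE_inj _ (congrArg Subtype.val h2)))
  apply h1
  change pl E x y (pushE τ i) (pushE τ j) = 0
  rw [pl_push, h0, map_zero]

end

theorem t_TRANS : S_TRANS := by
  classical
  intro F _ _ ι _ E _ _ _ x y hxy
  have hτ : ∀ p : Nat.Primes, Nonempty (Q' →+* Kp p) := fun p =>
    ⟨(IsAlgClosed.lift : Q' →ₐ[ℚ] Kp p).toRingHom⟩
  constructor
  · rintro p u ⟨i, hi⟩ ⟨j, hj⟩ hij
    obtain ⟨τ⟩ := hτ p
    obtain ⟨i', rfl⟩ := pushE_surj (E := E) τ i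
    obtain ⟨j', rfl⟩ := pushE_surj (E := E) τ j
    change pl E x y (pushE τ i') (pushE τ j') ≠ 0
    rw [pl_push]
    refine (map_ne_zero τ).2 (plQ_ne hxy (fun h => hij ?_) (rs_eq (F := F) τ ?_))
    · subst h; rfl
    · exact hi.trans hj.symm
  · have hfin : (⋃ q ∈ {q : Emb E Q' × Emb E Q' | q.1 ≠ q.2 ∧ rs F q.1 = rs F q.2},
        {p : Nat.Primes | ∃ σ : Q' →+* Kp p, ‖σ (plQ x y q.1 q.2)‖ ≠ 1}).Finite := by
      refine Set.Finite.biUnion (Set.toFinite _) fun q hq => ?_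
      refine fin_gen Q' _ ?_ (plQ_ne hxy hq.1 hq.2)
      exact (IsFractionRing.isAlgebraic_iff ℤ ℚ Q').2 (Algebra.IsAlgebraic.isAlgebraic _)
    refine hfin.subset ?_
    rintro p ⟨u, ⟨i, hi⟩, ⟨j, hj⟩, hij, hp⟩
    obtain ⟨τ⟩ := hτ p
    obtain ⟨i', rfl⟩ := pushE_surj (E := E) τ i
    obtain ⟨j', rfl⟩ := pushE_surj (E := E) τ j
    change ‖pl E x y (pushE τ i') (pushE τ j')‖ ≠ 1 at hp
    rw [pl_push] at hp
    rw [Set.mem_iUnion₂]
    refine ⟨(i', j'), ⟨fun h => hij ?_, rs_eq (F := F) τ (hi.trans hj.symm)⟩, τ, hp⟩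
    have h' : i' = j' := h
    subst h'
    rfl

end Pool.Agent.K1H10.DF
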